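import Pool.Agent.H34.Reap

namespace Pool.Agent.Results.MP_5d23e6_lc.Equal
open Pool.Agent.H34.Reap

theorem result : reap {1 / 2} = reap (Set.Ioo 0 1) ∧
    ∀ X : Set ℝ, X ⊆ Set.Ioo 0 1 → X.Nonempty → reap X = reap (Set.Ioo 0 1) :=
  ⟨reap_eq (Set.singleton_subset_iff.2 (by norm_num)) (Set.singleton_nonempty _),
    fun _ => reap_eq⟩

end Pool.Agent.Results.MP_5d23e6_lc.Equal
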